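import Mathlib
import Pool.Agent.Q133.GridDefs
import Pool.Agent.Q133.GridCount

set_option autoImplicit false

/-!
# The bend-number of claw-free graphs is unbounded
-/

namespace Pool.Agent.Results.MP_fe8c60_co.UnboundedBends

open Q133.EPG

/-- A graph is claw-free if it has no induced subgraph isomorphic to `K_{1,3}`. -/
def IsClawFree {V : Type} (G : SimpleGraph V) : Prop :=
  IsEmpty (completeBipartiteGraph (Fin 1) (Fin 3) ↪g G)

/-- The co-bipartite graph: two cliques `Fin m` and `Finset (Fin m)`, with `a` adjacent to `S` when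
`a ∈ S`. -/
def coBip (m : ℕ) : SimpleGraph (Fin m ⊕ Finset (Fin m)) where
  Adj x y := match x, y with
    | .inl a, .inl b => a ≠ b
    | .inr S, .inr S' => S ≠ S'
    | .inl a, .inr S => a ∈ S
    | .inr S, .inl a => a ∈ S
  symm := ⟨by
    rintro (a | S) (b | S') h
    · exact Ne.symm h
    · exact h
    · exact h
    · exact Ne.symm h⟩
  loopless := ⟨by
    rintro (a | S) h
    · exact h rfl
    · exact h rfl⟩

theorem coBip_clawFree (m : ℕ) : IsClawFree (coBip m) := by
  refine ⟨fun f => ?_⟩
  have hne : ∀ i j : Fin 3, i ≠ j → f (.inr i) ≠ f (.inr j) := by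
    intro i j hij h
    exact hij (Sum.inr_injective (f.injective h))
  have hna : ∀ i j : Fin 3, ¬ (coBip m).Adj (f (.inr i)) (f (.inr j)) := by
    intro i j h
    rw [f.map_adj_iff] at h
    simp [completeBipartiteGraph] at h
  -- two leaves on the same side are adjacent
  have hside : ∀ i j : Fin 3, i ≠ j → (f (.inr i)).isLeft ≠ (f (.inr j)).isLeft := by
    intro i j hij h
    have h1 := hne i j hij
    have h2 := hna i j
    rcases hi : f (.inr i) with a | S <;> rcases hj : f (.inr j) with b | S' <;>
      rw [hi, hj] at h h1 h2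
    · exact h2 (fun hab => h1 (by rw [hab]))
    · simp at h
    · simp at h
    · exact h2 (fun hab => h1 (by rw [hab]))
  have h01 := hside 0 1 (by decide)
  have h02 := hside 0 2 (by decide)
  have h12 := hside 1 2 (by decide)
  revert h01 h02 h12
  generalize (f (.inr 0)).isLeft = x
  generalize (f (.inr 1)).isLeft = y
  generalize (f (.inr 2)).isLeft = z
  revert x y z
  decide

/-- **Theorem.** For every `k` there is a finite claw-free graph `G` with bend-number greater than
`k`: `G` has no EPG representation in which every grid path has at most `k` bends. -/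
theorem result (k : ℕ) : ∃ (V : Type) (_ : Fintype V) (G : SimpleGraph V),
    IsClawFree G ∧ ¬ ∃ P : V → GridPath, IsBendRep G k P := by
  obtain ⟨m, hm⟩ := exists_large k
  refine ⟨_, inferInstance, coBip m, coBip_clawFree m, ?_⟩
  rintro ⟨P, hP1, hP2⟩
  refine absurd hm (not_lt.mpr (count_bound m k (fun a => {e | e ∈ (P (.inl a)).walk.edges})
    (fun S => {e | e ∈ (P (.inr S)).walk.edges}) ?_ ?_ ?_))
  · intro a
    exact exists_fun _ k (hP2 _)
  · intro S
    exact exists_fun _ k (hP2 _)
  · intro a S
    exact hP1 (.inl a) (.inr S) (by simp)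

end Pool.Agent.Results.MP_fe8c60_co.UnboundedBends
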